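import Pool.Agent.H540R3.DG10

/-!
# Cohomological and algebraic dimension of subgroups of diagram groups

Subgroups `K` of a diagram group `D` such that every element of `D` commuting with a nontrivial
element of `K` has a nontrivial power in `K`.
-/

set_option autoImplicit false

namespace Pool.Agent.Y796.CD

open H540DG

variable {A : Type} {P : Pres A}

/-- every element commuting with a nontrivial element of the image has a power in the image -/
def PC {w : List A} {K : Type} [Group K] (j : K →* Dg P w) : Prop :=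
  ∀ k : K, k ≠ 1 → ∀ z : Dg P w, j k * z = z * j k → ∃ n : ℕ, n ≠ 0 ∧ ∃ y : K, j y = z ^ n

theorem dg_tf {w : List A} (g : Dg P w) (h1 : g ≠ 1) (n : ℕ) (hn : n ≠ 0) : g ^ n ≠ 1 := by
  intro h
  apply h1
  apply Subtype.ext
  apply torsion_free g.2 hn
  have := congrArg Subtype.val h
  simpa using this

theorem tf_of_inj {w : List A} {G : Type} [Group G] {j : G →* Dg P w}
    (hj : Function.Injective j) (g : G) (hg : g ≠ 1) (n : ℕ) (hn : n ≠ 0) : g ^ n ≠ 1 := by
  intro h
  apply dg_tf (j g) ?_ n hn
  · rw [← map_pow, h, map_one]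
  · intro h
    exact hg (hj (by rw [h, map_one]))

theorem zpow_tf {G : Type} [Group G] {g : G} (h : ∀ n : ℕ, n ≠ 0 → g ^ n ≠ 1) {n : ℤ}
    (hn : g ^ n = 1) : n = 0 := by
  by_contra h0
  rcases Int.natAbs_eq n with h1 | h1
  · rw [h1, zpow_natCast] at hn
    exact h _ (by omega) hn
  · rw [h1, zpow_neg, zpow_natCast, inv_eq_one] at hn
    exact h _ (by omega) hn

/-- adjoin a generator -/
theorem extend {K : Type} [Group K] (K' : Subgroup K) (y : K) (hcomm : ∀ k ∈ K', k * y = y * k)
    (hind : ∀ k ∈ K', ∀ n : ℤ, k * y ^ n = 1 → k = 1 ∧ n = 0) {m : ℕ}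
    (h : ∃ f : Multiplicative (Fin m → ℤ) →* K', Function.Injective f) :
    ∃ f : Multiplicative (Fin (m + 1) → ℤ) →* K, Function.Injective f := by
  obtain ⟨f, hf⟩ := h
  let ft : Multiplicative (Fin (m + 1) → ℤ) → K' := fun z =>
    f (Multiplicative.ofAdd (fun i => (Multiplicative.toAdd z) i.succ))
  have hft : ∀ z z', ft (z * z') = ft z * ft z' := by
    intro z z'
    simp only [ft]
    rw [← map_mul]
    rfl
  have hc : ∀ (k : K') (n : ℤ), (k : K) * y ^ n = y ^ n * k := fun k n =>
    Commute.zpow_right (show Commute (k : K) y from hcomm k k.2) n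
  let F : Multiplicative (Fin (m + 1) → ℤ) →* K :=
    { toFun := fun z => (ft z : K) * y ^ ((Multiplicative.toAdd z) 0)
      map_one' := by
        have : ft 1 = 1 := by
          have := hft 1 1
          rw [mul_one] at this
          exact (left_eq_mul.1 this)
        simp [this]
      map_mul' := fun z z' => by
        have h0 : (Multiplicative.toAdd (z * z')) 0 =
          (Multiplicative.toAdd z) 0 + (Multiplicative.toAdd z') 0 := rfl
        simp only [hft, h0, zpow_add, Subgroup.coe_mul]
        calc (ft z : K) * (ft z' : K) * (y ^ (Multiplicative.toAdd z) 0 *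
                y ^ (Multiplicative.toAdd z') 0)
            = (ft z : K) * ((ft z' : K) * y ^ (Multiplicative.toAdd z) 0) *
                y ^ (Multiplicative.toAdd z') 0 := by group
          _ = (ft z : K) * (y ^ (Multiplicative.toAdd z) 0 * (ft z' : K)) *
                y ^ (Multiplicative.toAdd z') 0 := by rw [hc]
          _ = _ := by group }
  refine ⟨F, ?_⟩
  rw [injective_iff_map_eq_one]
  intro z hz1
  obtain ⟨h3, h5⟩ := hind _ (ft z).2 _ hz1
  have h6 : ft z = 1 := Subtype.ext h3
  have h7 := hf (h6.trans (map_one f).symm)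
  apply Multiplicative.toAdd.injective
  funext i
  refine Fin.cases ?_ ?_ i
  · exact h5
  · intro j
    exact congrFun (congrArg Multiplicative.toAdd h7) j

/-- the stabilizer of a class is the diagram group over the left part -/
theorem stab_equiv {w : List A} {F : Fam A} (hF : ∀ i q, F.Q i q → Tr P q) (c : Cl P w F) :
    ∃ (g : U P) (p : List A) (i : F.I) (q : List A), Pi w g (p ++ (F.m i ++ q)) ∧ F.Q i q ∧
      ∃ θ : MulAction.stabilizer (Dg P w) c ≃* Dg P p,
        ∀ d : MulAction.stabilizer (Dg P w) c,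
          (d : Dg P w).1 = g * wh [] (F.m i ++ q) (θ d).1 * g⁻¹ := by
  induction c using Quotient.inductionOn with
  | h x =>
    obtain ⟨⟨g, p, i, q⟩, hx, hQ⟩ := x
    simp only at hx hQ
    refine ⟨g, p, i, q, hx, hQ, ?_⟩
    have hpi : ∀ α : U P, Pi p α p → Pi w (g * wh [] (F.m i ++ q) α * g⁻¹) w := by
      intro α hα
      have h1 := hα.wh [] (F.m i ++ q)
      simp only [List.nil_append] at h1
      exact (hx.trans h1).trans hx.symm
    let φ : Dg P p →* MulAction.stabilizer (Dg P w)
        (Quotient.mk (ptSetoid P w F) ⟨(g, p, i, q), hx, hQ⟩) :=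
      { toFun := fun α => ⟨⟨g * wh [] (F.m i ++ q) α.1 * g⁻¹, hpi α.1 α.2⟩, by
          rw [MulAction.mem_stabilizer_iff]
          apply Quotient.sound
          refine ⟨rfl, wh [] (F.m i ++ q) α.1⁻¹, ⟨α.1⁻¹, 1, α.2.symm, Pi.refl _, ?_⟩, ?_⟩
          · simp [actPt]
          · simp [actPt]⟩
        map_one' := by
          apply Subtype.ext; apply Subtype.ext
          simp
        map_mul' := fun α β => by
          apply Subtype.ext; apply Subtype.ext
          simp [mul_assoc] }
    have hinj : Function.Injective φ := by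
      rw [injective_iff_map_eq_one]
      intro α hα
      have h1 := congrArg (fun z => z.1.1) hα
      simp only [φ, MonoidHom.coe_mk, OneHom.coe_mk, OneMemClass.coe_one] at h1
      have h2 : wh [] (F.m i ++ q) α.1 = 1 := by
        have : wh [] (F.m i ++ q) α.1 = g⁻¹ * (g * wh [] (F.m i ++ q) α.1 * g⁻¹) * g := by group
        rw [this, h1]; group
      apply Subtype.ext
      exact wh_right_inj _ α.2 h2
    have hsurj : Function.Surjective φ := by
      rintro ⟨⟨d, hd⟩, hs⟩
      rw [MulAction.mem_stabilizer_iff] at hs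
      obtain ⟨-, k, ⟨α, β, hα, hβ, hk⟩, hg⟩ := Quotient.exact hs.symm
      simp only [actPt] at hα hβ hk hg
      have hβ1 : β = 1 := hF i q hQ β hβ
      subst hβ1
      rw [map_one, mul_one] at hk
      refine ⟨⟨α, hα⟩, ?_⟩
      apply Subtype.ext; apply Subtype.ext
      change g * wh [] (F.m i ++ q) α * g⁻¹ = d
      rw [← hk, ← hg]; group
    let θ := (MulEquiv.ofBijective φ ⟨hinj, hsurj⟩)
    refine ⟨θ.symm, ?_⟩
    intro d
    obtain ⟨α, rfl⟩ := θ.surjective d
    rw [θ.symm_apply_apply]
    rfl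

/-- one step of the induction -/
theorem stab_step {w : List A} {F : Fam A} (hF : ∀ i q, F.Q i q → Tr P q)
    (hF' : ∀ i q, F.Q i q → ¬ Tr P (F.m i ++ q)) {n k : ℕ}
    (ih : ∀ (p : List A) (K : Type) (_ : Group K) (j : K →* Dg P p), Function.Injective j → PC j →
      AdLE K n → Van K k) {K : Type} [Group K] (j : K →* Dg P w) (hj : Function.Injective j)
    (hpc : PC j) (had : AdLE K (n + 1)) (c : Cl P w F) :
    Van ((MulAction.stabilizer (Dg P w) c).comap j) k := by
  by_cases hsub : Subsingleton ((MulAction.stabilizer (Dg P w) c).comap j)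
  · exact van_of_subsingleton k
  obtain ⟨k0, hk0⟩ : ∃ k0 : (MulAction.stabilizer (Dg P w) c).comap j, k0 ≠ 1 := by
    by_contra hall
    push Not at hall
    exact hsub ⟨fun a b => by rw [hall a, hall b]⟩
  have hk0' : (k0 : K) ≠ 1 := fun h => hk0 (Subtype.ext h)
  obtain ⟨g, p, i, q, hx, hQ, θ, hθ⟩ := stab_equiv (P := P) hF c
  let r : (MulAction.stabilizer (Dg P w) c).comap j →* MulAction.stabilizer (Dg P w) c :=
    { toFun := fun k => ⟨j k.1, k.2⟩
      map_one' := Subtype.ext (map_one j)
      map_mul' := fun a b => Subtype.ext (map_mul j a.1 b.1) }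
  have hr : Function.Injective r := by
    intro a b hab
    exact Subtype.ext (hj (congrArg Subtype.val hab))
  let j' : (MulAction.stabilizer (Dg P w) c).comap j →* Dg P p := θ.toMonoidHom.comp r
  have hj' : Function.Injective j' := θ.injective.comp hr
  have hjj : ∀ k : (MulAction.stabilizer (Dg P w) c).comap j,
      (j k.1).1 = g * wh [] (F.m i ++ q) (j' k).1 * g⁻¹ := fun k => hθ (r k)
  refine ih p _ _ j' hj' ?_ ?_
  · intro k hk z hz
    have hk' : (k : K) ≠ 1 := fun h => hk (Subtype.ext h)
    obtain ⟨n, hn, y, hy⟩ := hpc k.1 hk' (θ.symm z : Dg P w) (by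
      have h1 : r k * θ.symm z = θ.symm z * r k := by
        apply θ.injective
        rw [map_mul, map_mul, θ.apply_symm_apply]
        exact hz
      exact congrArg Subtype.val h1)
    have hy2 : y ∈ (MulAction.stabilizer (Dg P w) c).comap j := by
      rw [Subgroup.mem_comap, hy]
      exact Subgroup.pow_mem _ (θ.symm z).2 n
    refine ⟨n, hn, ⟨y, hy2⟩, ?_⟩
    have h2 : r ⟨y, hy2⟩ = (θ.symm z) ^ n := Subtype.ext hy
    change θ (r ⟨y, hy2⟩) = _
    rw [h2, map_pow, θ.apply_symm_apply]
  · intro m hm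
    have hnt := hF' i q hQ
    unfold Tr at hnt
    push Not at hnt
    obtain ⟨τ, hτ, hτ1⟩ := hnt
    have hZ : Pi w (g * wh p [] τ * g⁻¹) w := by
      have h2 := hτ.wh p []
      simp only [List.append_nil] at h2
      exact (hx.trans h2).trans hx.symm
    have hcz : ∀ k : (MulAction.stabilizer (Dg P w) c).comap j,
        j k.1 * ⟨g * wh p [] τ * g⁻¹, hZ⟩ = ⟨g * wh p [] τ * g⁻¹, hZ⟩ * j k.1 := by
      intro k
      apply Subtype.ext
      rw [Subgroup.coe_mul, Subgroup.coe_mul, hjj k]
      have h4 := interchange (j' k).2 hτ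
      calc g * wh [] (F.m i ++ q) (j' k).1 * g⁻¹ * (g * wh p [] τ * g⁻¹)
          = g * (wh [] (F.m i ++ q) (j' k).1 * wh p [] τ) * g⁻¹ := by group
        _ = g * (wh p [] τ * wh [] (F.m i ++ q) (j' k).1) * g⁻¹ := by rw [h4]
        _ = _ := by group
    obtain ⟨N, hN, y, hy⟩ := hpc k0.1 hk0' _ (hcz k0)
    have hy1 : (j y).1 = g * wh p [] (τ ^ N) * g⁻¹ := by
      rw [hy, Subgroup.coe_pow, map_pow, conj_pow]
    have hzp : ∀ n : ℤ, Pi (F.m i ++ q) (τ ^ n) (F.m i ++ q) := fun n =>
      (Dg P (F.m i ++ q)).zpow_mem (x := τ) hτ n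
    have := had (m + 1) (extend ((MulAction.stabilizer (Dg P w) c).comap j) y ?_ ?_ hm)
    · omega
    · intro k hk
      apply hj
      rw [map_mul, map_mul, hy]
      exact (Commute.pow_right (hcz ⟨k, hk⟩) N)
    · intro k hk n hkn
      have h1 : (j k * j y ^ n).1 = 1 := by
        rw [← map_zpow, ← map_mul, hkn, map_one]; rfl
      rw [Subgroup.coe_mul, Subgroup.coe_zpow, hy1, hjj ⟨k, hk⟩, conj_zpow, ← map_zpow] at h1
      have h2 : wh [] (F.m i ++ q) (j' ⟨k, hk⟩).1 * wh p [] ((τ ^ N) ^ n) = 1 := by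
        have e : wh [] (F.m i ++ q) (j' ⟨k, hk⟩).1 * wh p [] ((τ ^ N) ^ n) =
            g⁻¹ * (g * wh [] (F.m i ++ q) (j' ⟨k, hk⟩).1 * g⁻¹ *
              (g * wh p [] ((τ ^ N) ^ n) * g⁻¹)) * g := by group
        rw [e, h1]; group
      have h3 : Pi (F.m i ++ q) ((τ ^ N) ^ n) (F.m i ++ q) := by
        have := hzp (N * n)
        rwa [zpow_mul, zpow_natCast] at this
      obtain ⟨h4, h5⟩ := prod_inj (j' ⟨k, hk⟩).2 h3 h2
      constructor
      · have h6 : j' ⟨k, hk⟩ = 1 := Subtype.ext h4
        have h7 := hj' (h6.trans (map_one j').symm)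
        exact congrArg Subtype.val h7
      · have h6 : τ ^ ((N : ℤ) * n) = 1 := by rw [zpow_mul, zpow_natCast]; exact h5
        have h7 : (N : ℤ) * n = 0 := zpow_tf (g := τ)
          (fun m hm h => hτ1 (torsion_free hτ hm h)) h6
        rcases mul_eq_zero.1 h7 with h8 | h8
        · exact absurd (by exact_mod_cast h8) hN
        · exact h8

theorem exists_free_one' {K : Type} [Group K] {k : K} (hk : ∀ n : ℕ, n ≠ 0 → k ^ n ≠ 1) :
    ∃ f : Multiplicative (Fin 1 → ℤ) →* K, Function.Injective f := by
  apply extend (⊥ : Subgroup K) k (m := 0)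
  · intro x hx
    rw [Subgroup.mem_bot.1 hx, one_mul, mul_one]
  · intro x hx n hn
    rw [Subgroup.mem_bot.1 hx, one_mul] at hn
    exact ⟨Subgroup.mem_bot.1 hx, zpow_tf hk hn⟩
  · refine ⟨1, ?_⟩
    intro a b _
    apply Multiplicative.toAdd.injective
    funext i
    exact i.elim0

/-- **Upper bound.** -/
theorem van_of_adLE (n : ℕ) : ∀ (w : List A) (K : Type) (_ : Group K) (j : K →* Dg P w),
    Function.Injective j → PC j → AdLE K n → ∀ k, n ≤ k → Van K k := by
  induction n with
  | zero =>
    intro w K _ j hj _ had k _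
    have hall : ∀ x : K, x = 1 := by
      by_contra h
      push Not at h
      obtain ⟨x, hx⟩ := h
      have := had 1 (exists_free_one' (tf_of_inj hj x hx))
      omega
    have : Subsingleton K := ⟨fun a b => by rw [hall a, hall b]⟩
    exact van_of_subsingleton k
  | succ n ih =>
    intro w K _ j hj hpc had k hk
    by_cases hsub : Subsingleton K
    · exact van_of_subsingleton k
    have ht : ¬ Tr P w := by
      intro ht
      apply hsub
      refine ⟨fun a b => hj ?_⟩
      apply Subtype.ext
      rw [ht _ (j a).2, ht _ (j b).2]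
    obtain ⟨k, rfl⟩ : ∃ k', k = k' + 1 := ⟨k - 1, by omega⟩
    have : Nonempty (Cl P w (FV P)) := ⟨vtx ht 1 w (Pi.refl w)⟩
    let iV : MulAction K (Cl P w (FV P)) := MulAction.compHom _ j
    let iE : MulAction K (Cl P w (FE P)) := MulAction.compHom _ j
    refine van_tree (G := K) (Cl P w (FV P)) (Cl P w (FE P)) (bd0 ht) (bd1 ht)
      (fun g x => bd0_smul ht (j g) x)
      (fun g x => bd1_smul ht (j g) x) (fun M _ F hF => tree_conn ht F hF)
      (fun M _ φ => tree_surj ht φ) ?_ ?_
    · intro v
      have h1 : Van ((MulAction.stabilizer (Dg P w) v).comap j) (k + 1) :=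
        stab_step (F := FV P) (fun x q hQ => hQ.1) (fun x q hQ => hQ.2)
          (fun p K' i' j' hj' hpc' had' => ih p K' i' j' hj' hpc' had' _ (by omega)) j hj hpc had v
      exact h1
    · intro e
      have h1 : Van ((MulAction.stabilizer (Dg P w) e).comap j) k :=
        stab_step (F := FE P) (fun x q hQ => hQ.1) (fun x q hQ => hQ.2)
          (fun p K' i' j' hj' hpc' had' => ih p K' i' j' hj' hpc' had' _ (by omega)) j hj hpc had e
      exact h1

end Pool.Agent.Y796.CD
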